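import Mathlib
import Pool.Agent.Lib.MP_351138_al.Defs
import Pool.Agent.Lib.MP_351138_al.Main

/-!
For every field there is a symmetric tensor of order three whose rank is smaller than its
symmetric rank.
-/

open Pool.Agent.Lib.MP_351138_al

theorem Pool.Agent.Results.MP_351138_al.NoComonField.result (F : Type*) [Field F] :
    ∃ (n : ℕ) (T : Fin n → Fin n → Fin n → F), IsSymm T ∧ rank T < srank T :=
  main F
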